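import Mathlib

set_option autoImplicit false

namespace Pool.Agent.Results.MP_e25dcb_al.BooleanEMIS

section Defs

variable {W : Type} [Group W]

/-- `l` is a word in the letters `S`. -/
def IsWord (S : Set W) (l : List W) : Prop := ∀ s ∈ l, s ∈ S

/-- `l` is a reduced word in the letters `S`: no shorter word has the same product. -/
def Reduced (S : Set W) (l : List W) : Prop :=
  IsWord S l ∧ ∀ l' : List W, IsWord S l' → l'.prod = l.prod → l.length ≤ l'.length

/-- The right weak order: some reduced word for `u` is a prefix of some reduced word for `v`. -/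
def WeakLE (S : Set W) (u v : W) : Prop :=
  ∃ l₁ l₂ : List W, Reduced S l₁ ∧ l₁.prod = u ∧ Reduced S (l₁ ++ l₂) ∧ (l₁ ++ l₂).prod = v

/-- `m` is the greatest lower bound of `X` in the right weak order. -/
def IsMeet (S : Set W) (X : Set W) (m : W) : Prop :=
  (∀ x ∈ X, WeakLE S m x) ∧ ∀ y, (∀ x ∈ X, WeakLE S y x) → WeakLE S y m

/-- `j` is the least upper bound of `X` in the right weak order. -/
def IsJoin (S : Set W) (X : Set W) (j : W) : Prop :=
  (∀ x ∈ X, WeakLE S x j) ∧ ∀ y, (∀ x ∈ X, WeakLE S x y) → WeakLE S j y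

/-- `(W, S)` is an even meet involution system. -/
structure IsEMIS (S : Set W) : Prop where
  finite : S.Finite
  invol : ∀ s ∈ S, s ≠ 1 ∧ s * s = 1
  gen : Subgroup.closure S = ⊤
  sign : ∃ ε : W →* ℤˣ, ∀ s ∈ S, ε s = -1
  meet : ∀ X : Set W, X.Nonempty → ∃ m, IsMeet S X m

end Defs

/-- The weak order is antisymmetric, so meets and joins are unique. -/
theorem weakLE_antisymm {W : Type} [Group W] (S : Set W) (u v : W)
    (h₁ : WeakLE S u v) (h₂ : WeakLE S v u) : u = v := by
  obtain ⟨l₁, l₂, r₁, p₁, r₂, p₂⟩ := h₁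
  obtain ⟨k₁, k₂, q₁, o₁, q₂, o₂⟩ := h₂
  have a := r₁.2 (k₁ ++ k₂) q₂.1 (by rw [o₂, p₁])
  have a' := q₂.2 l₁ r₁.1 (by rw [o₂, p₁])
  have b := q₁.2 (l₁ ++ l₂) r₂.1 (by rw [o₁, p₂])
  have b' := r₂.2 k₁ q₁.1 (by rw [o₁, p₂])
  simp only [List.length_append] at a a' b b'
  have hl : l₂ = [] := List.eq_nil_of_length_eq_zero (by omega)
  subst hl
  rw [← p₁, ← p₂, List.append_nil]

/-- The underlying set of the group of order 16: vertices of the 4-cube. -/
structure Q where
  a : Bool
  b : Bool
  c : Bool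
  d : Bool
deriving DecidableEq, Fintype

namespace Q

def mul (x y : Q) : Q where
  a := xor x.a (if xor x.c x.d then y.b else y.a)
  b := xor x.b (if xor x.c x.d then y.a else y.b)
  c := xor x.c (if xor x.a x.b then y.d else y.c)
  d := xor x.d (if xor x.a x.b then y.c else y.d)

def inv (x : Q) : Q where
  a := if xor x.c x.d then x.b else x.a
  b := if xor x.c x.d then x.a else x.b
  c := if xor x.a x.b then x.d else x.c
  d := if xor x.a x.b then x.c else x.d

instance : Mul Q := ⟨mul⟩
instance : One Q := ⟨⟨false, false, false, false⟩⟩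
instance : Inv Q := ⟨inv⟩

theorem mul_def (x y : Q) : x * y = mul x y := rfl

instance : Group Q := Group.ofLeftAxioms
  (by
    rintro ⟨a, b, c, d⟩ ⟨a', b', c', d'⟩ ⟨a'', b'', c'', d''⟩
    simp only [mul_def, mul, mk.injEq]
    revert a b c d a' b' c' d' a'' b'' c'' d''
    decide)
  (by decide) (by decide)

/-- The number of nonzero coordinates. -/
def wt (x : Q) : ℕ := x.a.toNat + x.b.toNat + x.c.toNat + x.d.toNat

def A : Q := ⟨true, false, false, false⟩
def B : Q := ⟨false, true, false, false⟩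
def C : Q := ⟨false, false, true, false⟩
def D : Q := ⟨false, false, false, true⟩

/-- The generating set. -/
def S : Set Q := {A, B, C, D}

/-- Containment of supports. -/
def le (x y : Q) : Prop :=
  (x.a = true → y.a = true) ∧ (x.b = true → y.b = true) ∧
    (x.c = true → y.c = true) ∧ (x.d = true → y.d = true)

instance (x y : Q) : Decidable (le x y) := by unfold le; infer_instance

theorem le_refl (x : Q) : le x x := ⟨id, id, id, id⟩

theorem le_trans {x y z : Q} (h : le x y) (k : le y z) : le x z :=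
  ⟨k.1 ∘ h.1, k.2.1 ∘ h.2.1, k.2.2.1 ∘ h.2.2.1, k.2.2.2 ∘ h.2.2.2⟩

theorem mem_S {s : Q} : s ∈ S ↔ s = A ∨ s = B ∨ s = C ∨ s = D := by
  simp [S]

theorem wt_step {x s : Q} (hs : s ∈ S) : wt (x * s) ≤ wt x + 1 := by
  have h : ∀ x : Q, wt (x * A) ≤ wt x + 1 ∧ wt (x * B) ≤ wt x + 1 ∧
    wt (x * C) ≤ wt x + 1 ∧ wt (x * D) ≤ wt x + 1 := by decide
  obtain ⟨h1, h2, h3, h4⟩ := h x
  rcases mem_S.1 hs with rfl | rfl | rfl | rfl <;> assumption

theorem le_step {x s : Q} (hs : s ∈ S) (hw : wt (x * s) = wt x + 1) : le x (x * s) := by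
  have h : ∀ x : Q, (wt (x * A) = wt x + 1 → le x (x * A)) ∧
    (wt (x * B) = wt x + 1 → le x (x * B)) ∧ (wt (x * C) = wt x + 1 → le x (x * C)) ∧
    (wt (x * D) = wt x + 1 → le x (x * D)) := by decide
  obtain ⟨h1, h2, h3, h4⟩ := h x
  rcases mem_S.1 hs with rfl | rfl | rfl | rfl
  · exact h1 hw
  · exact h2 hw
  · exact h3 hw
  · exact h4 hw

theorem wt_mul_prod (l : List Q) : ∀ x : Q, IsWord S l → wt (x * l.prod) ≤ wt x + l.length := by
  induction l with
  | nil => intro x _; simp
  | cons s t ih =>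
    intro x h
    have hs : s ∈ S := h s (by simp)
    have ht : IsWord S t := fun r hr => h r (by simp [hr])
    have h1 := ih (x * s) ht
    have h2 := wt_step (x := x) hs
    rw [List.prod_cons, ← mul_assoc, List.length_cons]
    omega

theorem le_mul_prod (l : List Q) : ∀ x : Q, IsWord S l → wt (x * l.prod) = wt x + l.length →
    le x (x * l.prod) := by
  induction l with
  | nil => intro x _ _; simpa using le_refl x
  | cons s t ih =>
    intro x h hw
    have hs : s ∈ S := h s (by simp)
    have ht : IsWord S t := fun r hr => h r (by simp [hr])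
    have h1 := wt_mul_prod t (x * s) ht
    have h2 := wt_step (x := x) hs
    rw [List.prod_cons, ← mul_assoc, List.length_cons] at hw
    rw [List.prod_cons, ← mul_assoc]
    exact le_trans (le_step hs (by omega)) (ih (x * s) ht (by omega))

theorem exists_word (n : ℕ) : ∀ x : Q, wt x = n → ∃ l, IsWord S l ∧ l.prod = x ∧ l.length = n := by
  induction n with
  | zero =>
    intro x hx
    have h : ∀ x : Q, wt x = 0 → x = 1 := by decide
    exact ⟨[], by intro s hs; simp at hs, by rw [h x hx]; rfl, rfl⟩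
  | succ n ih =>
    intro x hx
    have h : ∀ x : Q, wt x ≠ 0 → (wt (x * A) + 1 = wt x ∨ wt (x * B) + 1 = wt x ∨
      wt (x * C) + 1 = wt x ∨ wt (x * D) + 1 = wt x) := by decide
    have key : ∃ s ∈ S, wt (x * s) + 1 = wt x ∧ s * s = 1 := by
      rcases h x (by omega) with h | h | h | h
      · exact ⟨A, mem_S.2 (by simp), h, by decide⟩
      · exact ⟨B, mem_S.2 (by simp), h, by decide⟩
      · exact ⟨C, mem_S.2 (by simp), h, by decide⟩
      · exact ⟨D, mem_S.2 (by simp), h, by decide⟩
    obtain ⟨s, hs, hw, hss⟩ := key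
    obtain ⟨l, hl, hp, hn⟩ := ih (x * s) (by omega)
    refine ⟨l ++ [s], ?_, ?_, ?_⟩
    · intro r hr
      rcases List.mem_append.1 hr with hr | hr
      · exact hl r hr
      · rw [List.mem_singleton.1 hr]; exact hs
    · rw [List.prod_append, hp, List.prod_singleton, mul_assoc, hss, mul_one]
    · simp [hn]

theorem length_of_reduced {l : List Q} (h : Reduced S l) : l.length = wt l.prod := by
  obtain ⟨k, hk, hp, hn⟩ := exists_word (wt l.prod) l.prod rfl
  have h1 := h.2 k hk hp
  have h2 := wt_mul_prod l 1 h.1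
  have h3 : wt (1 : Q) = 0 := by decide
  rw [one_mul] at h2
  omega

theorem reduced_of_length {l : List Q} (h : IsWord S l) (hn : l.length = wt l.prod) :
    Reduced S l := by
  refine ⟨h, fun k hk hp => ?_⟩
  have h2 := wt_mul_prod k 1 hk
  have h3 : wt (1 : Q) = 0 := by decide
  rw [one_mul, hp] at h2
  omega

theorem weakLE_iff (u v : Q) : WeakLE S u v ↔ le u v := by
  constructor
  · rintro ⟨l₁, l₂, r₁, rfl, r₂, rfl⟩
    have h1 := length_of_reduced r₁
    have h2 := length_of_reduced r₂
    rw [List.prod_append, List.length_append] at h2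
    rw [List.prod_append]
    exact le_mul_prod l₂ _ (fun s hs => r₂.1 s (by simp [hs])) (by omega)
  · intro h
    obtain ⟨l₁, hl₁, hp₁, hn₁⟩ := exists_word (wt u) u rfl
    obtain ⟨l₂, hl₂, hp₂, hn₂⟩ := exists_word (wt (u⁻¹ * v)) (u⁻¹ * v) rfl
    have key : ∀ u v : Q, le u v → wt u + wt (u⁻¹ * v) = wt v := by decide
    have hk := key u v h
    have hp : (l₁ ++ l₂).prod = v := by rw [List.prod_append, hp₁, hp₂]; group
    refine ⟨l₁, l₂, reduced_of_length hl₁ (by rw [hp₁, hn₁]), hp₁, reduced_of_length ?_ ?_, hp⟩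
    · intro s hs
      rcases List.mem_append.1 hs with hs | hs
      · exact hl₁ s hs
      · exact hl₂ s hs
    · rw [hp, List.length_append, hn₁, hn₂, hk]

/-- The sign character. -/
def eps : Q →* ℤˣ where
  toFun x := if (wt x) % 2 = 0 then 1 else -1
  map_one' := by decide
  map_mul' := by decide

open Classical in
theorem exists_meet (X : Set Q) : ∃ m, (∀ x ∈ X, le m x) ∧ ∀ y, (∀ x ∈ X, le y x) → le y m := by
  refine ⟨⟨decide (∀ x ∈ X, x.a = true), decide (∀ x ∈ X, x.b = true),
    decide (∀ x ∈ X, x.c = true), decide (∀ x ∈ X, x.d = true)⟩, ?_, ?_⟩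
  · intro x hx
    simp only [le, decide_eq_true_eq]
    exact ⟨fun h => h x hx, fun h => h x hx, fun h => h x hx, fun h => h x hx⟩
  · intro y hy
    simp only [le, decide_eq_true_eq]
    exact ⟨fun h x hx => (hy x hx).1 h, fun h x hx => (hy x hx).2.1 h,
      fun h x hx => (hy x hx).2.2.1 h, fun h x hx => (hy x hx).2.2.2 h⟩

theorem isEMIS : IsEMIS S where
  finite := Set.toFinite S
  invol := by
    intro s hs
    rcases mem_S.1 hs with rfl | rfl | rfl | rfl <;> decide
  gen := by
    rw [eq_top_iff]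
    intro x _
    obtain ⟨l, hl, hp, -⟩ := exists_word (wt x) x rfl
    rw [← hp]
    exact Subgroup.list_prod_mem _ (fun s hs => Subgroup.subset_closure (hl s hs))
  sign := by
    refine ⟨eps, ?_⟩
    intro s hs
    rcases mem_S.1 hs with rfl | rfl | rfl | rfl <;> decide
  meet := by
    intro X _
    obtain ⟨m, h1, h2⟩ := exists_meet X
    refine ⟨m, fun x hx => (weakLE_iff _ _).2 (h1 x hx), fun y hy => (weakLE_iff _ _).2
      (h2 y (fun x hx => (weakLE_iff _ _).1 (hy x hx)))⟩

/-- A predicate defining the subgroup generated by `A` and `C`. -/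
def inK (x : Q) : Bool :=
  (x = 1) || (x = A) || (x = C) || (x = A * C) || (x = C * A) || (x = A * C * A) ||
    (x = C * A * C) || (x = A * C * A * C)

def K : Subgroup Q where
  carrier := {x | inK x = true}
  mul_mem' := by
    have h : ∀ x y : Q, inK x = true → inK y = true → inK (x * y) = true := by decide
    intro x y hx hy
    exact h x y hx hy
  one_mem' := by
    have h : inK 1 = true := by decide
    exact h
  inv_mem' := by
    have h : ∀ x : Q, inK x = true → inK x⁻¹ = true := by decide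
    intro x hx
    exact h x hx

theorem closure_le : Subgroup.closure ({A, C} : Set Q) ≤ K := by
  rw [Subgroup.closure_le]
  intro x hx
  have hA : inK A = true := by decide
  have hC : inK C = true := by decide
  rcases hx with rfl | rfl
  · exact hA
  · exact hC

theorem not_mem {x : Q} (h : inK x = false) : x ∉ Subgroup.closure ({A, C} : Set Q) := by
  intro hx
  have h' : inK x = true := closure_le hx
  rw [h] at h'
  exact Bool.false_ne_true h'

theorem A_mem : A ∈ Subgroup.closure ({A, C} : Set Q) := Subgroup.subset_closure (by simp)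
theorem C_mem : C ∈ Subgroup.closure ({A, C} : Set Q) := Subgroup.subset_closure (by simp)

/-- The supports identify the group with the vertices of the 4-cube. -/
def toCube : Q ≃ (Fin 4 → Bool) where
  toFun x := ![x.a, x.b, x.c, x.d]
  invFun f := ⟨f 0, f 1, f 2, f 3⟩
  left_inv x := by cases x; rfl
  right_inv f := by
    funext i
    fin_cases i <;> rfl

theorem toCube_le (u v : Q) : le u v ↔ toCube u ≤ toCube v := by
  rw [Pi.le_def, Fin.forall_fin_succ, Fin.forall_fin_succ, Fin.forall_fin_succ,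
    Fin.forall_fin_succ]
  simp [le, toCube, Bool.le_iff_imp]

end Q

/-- There is an even meet involution system `(W, S)`, with `|S| = 4`, `|W| = 16` and weak order
isomorphic to the Boolean lattice `2^4`, and a subset `I ⊆ S` such that the subgroup generated by
`I` is closed neither under meets (Q1) nor under joins of bounded subsets (Q2). -/
theorem result :
    ∃ (W : Type) (_ : Group W) (S : Set W), IsEMIS S ∧
      (∃ f : W ≃ (Fin 4 → Bool), ∀ u v, WeakLE S u v ↔ f u ≤ f v) ∧
      ∃ I : Set W, I ⊆ S ∧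
        (∃ x ∈ Subgroup.closure I, ∃ y ∈ Subgroup.closure I, ∃ m,
          IsMeet S {x, y} m ∧ m ∉ Subgroup.closure I) ∧
        (∃ x ∈ Subgroup.closure I, ∃ y ∈ Subgroup.closure I, ∃ j,
          IsJoin S {x, y} j ∧ j ∉ Subgroup.closure I) := by
  refine ⟨Q, inferInstance, Q.S, Q.isEMIS, ⟨Q.toCube, fun u v => ?_⟩, {Q.A, Q.C}, ?_, ?_, ?_⟩
  · rw [Q.weakLE_iff, Q.toCube_le]
  · intro s hs
    rcases hs with rfl | rfl
    · exact Q.mem_S.2 (by simp)
    · exact Q.mem_S.2 (by simp)
  · refine ⟨Q.A * Q.C, mul_mem Q.A_mem Q.C_mem, Q.C * Q.A * Q.C,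
      mul_mem (mul_mem Q.C_mem Q.A_mem) Q.C_mem, Q.D, ?_, Q.not_mem (by decide)⟩
    constructor
    · intro x hx
      rw [Q.weakLE_iff]
      rcases hx with rfl | rfl <;> decide
    · intro y hy
      have h1 := (Q.weakLE_iff _ _).1 (hy _ (Or.inl rfl))
      have h2 := (Q.weakLE_iff _ _).1 (hy _ (Or.inr rfl))
      rw [Q.weakLE_iff]
      revert h1 h2 y
      have h : ∀ y : Q, Q.le y (Q.A * Q.C) → Q.le y (Q.C * Q.A * Q.C) → Q.le y Q.D := by decide
      intro y _ h1 h2
      exact h y h1 h2
  · refine ⟨Q.A, Q.A_mem, Q.C, Q.C_mem, ⟨true, false, true, false⟩, ?_, Q.not_mem (by decide)⟩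
    constructor
    · intro x hx
      rw [Q.weakLE_iff]
      rcases hx with rfl | rfl <;> decide
    · intro y hy
      have h1 := (Q.weakLE_iff _ _).1 (hy _ (Or.inl rfl))
      have h2 := (Q.weakLE_iff _ _).1 (hy _ (Or.inr rfl))
      rw [Q.weakLE_iff]
      have h : ∀ y : Q, Q.le Q.A y → Q.le Q.C y → Q.le ⟨true, false, true, false⟩ y := by decide
      exact h y h1 h2

end Pool.Agent.Results.MP_e25dcb_al.BooleanEMIS
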